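import Pool.Agent.Y703.QT8.B

/-!
Project QT, task T8: `Pool.Agent.Y703.QT8.T8a`, `T8b`, `T8c`, `T8d` (proved in `QT8/A.lean` and `QT8/B.lean`).
The examples below restate them word for word as in `Pool/Agent/Y19/QT/Stm.lean`.
-/

set_option autoImplicit false

namespace Pool.Agent.Y703.QT8.Check

open Complex MeasureTheory Filter Topology
open Pool.Agent.Y19.QT
open Pool.Agent.H306R2.RZ (js Gk)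
open scoped ENNReal ComplexConjugate

/-- T8a -/
example {Q : ℕ} {lam : ℕ → ℝ} (T : Twists Q lam) (d : ℤ) (hd : Squarefree d) :
    Differentiable ℂ (T.ell d) ∧
    (∀ s : ℂ, 2 < s.re → T.ell d s = ∑' n : ℕ, (T.cf d n : ℂ) * (n : ℂ) ^ (-s)) ∧
    (∀ s : ℂ, T.ell d (conj s) = conj (T.ell d s)) ∧
    ∃ C : ℝ, ∀ s : ℂ, 1 / 4 ≤ s.re → s.re ≤ 3 → ‖T.ell d s‖ ≤ C * Real.exp (Real.pi / 32 * |s.im|) :=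
  T8a T d hd

/-- T8b -/
example {Q : ℕ} {lam : ℕ → ℝ} (T : Twists Q lam) (θ : ℝ) (h0 : 0 < θ) (h1 : θ < Real.pi / 2) :
    ∃ C : ℝ, 0 < C ∧ ∀ (d : ℤ) (σ σ' : ℝ), Squarefree d → 0 ≤ σ → σ ≤ 1 → σ' ≤ 1 →
      |σ - 1 / 2| ≤ σ' - 1 / 2 →
      ∫⁻ y : ℝ, ‖T.ell d (σ + y * I)‖ₑ ^ 2 *
          ENNReal.ofReal (Real.exp (-((Real.pi - 2 * θ) * |y|))) ≤
        ENNReal.ofReal (C * |(d : ℝ)| ^ (2 * (σ' - σ))) * NN σ' θ (T.q d)⁻¹ (T.Gf d) :=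
  T8b T θ h0 h1

/-- T8c -/
example {Q : ℕ} {lam : ℕ → ℝ} (T : Twists Q lam) (θ : ℝ) (h0 : 0 < θ) (h1 : θ < Real.pi / 2) :
    ∃ C : ℝ, 0 < C ∧ ∀ (d : ℤ) (σ : ℝ), Squarefree d → 1 / 2 ≤ σ → σ ≤ 1 →
      NN σ θ (T.q d)⁻¹ (T.Gf d) ≤ ENNReal.ofReal (C * |(d : ℝ)| ^ 6) :=
  T8c T θ h0 h1

/-- T8d: trivial pointwise bound -/
example {Q : ℕ} {lam : ℕ → ℝ} (T : Twists Q lam) :
    ∃ (C : ℝ) (A : ℕ), 0 < C ∧ ∀ (d : ℤ) (s : ℂ), Squarefree d → ‖s‖ ≤ 6 →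
      ‖T.ell d s‖ ≤ C * |(d : ℝ)| ^ A :=
  T8d T

end Pool.Agent.Y703.QT8.Check
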