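import Pool.Agent.Y703.QT12.Main

/-! QT-T12: exponential moments of the order of vanishing. -/

set_option autoImplicit false

namespace Pool.Agent.Y703.QT12

open Complex MeasureTheory Filter Topology Set
open Pool.Agent.Y19.QT Pool.Agent.Y703.QT8
open Pool.Agent.H306R2.RZ (js Gk)
open scoped ENNReal ComplexConjugate

variable {Q : ℕ} {lam : ℕ → ℝ} (T : Twists Q lam)

lemma four_pow (r : ℕ) : Real.exp (33 / 25 * r) ≤ 4 ^ r := by
  have h : (33 / 25 : ℝ) ≤ Real.log 4 := by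
    have h1 := Real.log_two_gt_d9
    have h2 : Real.log 4 = 2 * Real.log 2 := by
      rw [show (4 : ℝ) = 2 ^ 2 by norm_num, Real.log_pow]; push_cast; ring
    linarith
  calc Real.exp (33 / 25 * r) ≤ Real.exp (Real.log 4 * r) := by gcongr
    _ = 4 ^ r := by rw [mul_comm, Real.exp_nat_mul, Real.exp_log (by norm_num)]

set_option maxHeartbeats 4000000 in
/-- the middle range -/
theorem card_mid : ∃ (C : ℝ) (A : ℕ), 0 < C ∧ ∀ X r : ℕ, 3 ≤ X → 12 ≤ r → (r : ℝ) ≤ Real.log X →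
    ((SS T X r).card : ℝ) ≤ C * X * Real.log X ^ A * Real.exp (-(r / 800)) := by
  obtain ⟨C1, A1, hC1, h1⟩ := sum_vv T
  obtain ⟨C2, A2, hC2, h2⟩ := sum_uu T
  refine ⟨81 * C1 + C2 * (2 + 2 * 9 ^ A2 + 1 + 1 + 9), A1 + 2 + (2 * A2 + 1), by positivity,
    fun X r hX hr hrX => ?_⟩
  have hX0 : (0 : ℝ) < X := by exact_mod_cast (by omega : 0 < X)
  have hX1 : (1 : ℝ) ≤ X := by exact_mod_cast (by omega : 1 ≤ X)
  set L := Real.log X with hLdef
  have hr' : (12 : ℝ) ≤ r := by exact_mod_cast hr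
  have hL12 : 12 ≤ L := by linarith
  have hL1 : 1 ≤ L := by linarith
  have hXL : Real.exp L = X := Real.exp_log hX0
  set δ : ℝ := r / (100 * L) with hδdef
  have hδ : 0 < δ := by positivity
  have hδL : δ * L = r / 100 := by rw [hδdef]; field_simp
  have hδ1 : δ ≤ 1 / 100 := by
    rw [hδdef, div_le_div_iff₀ (by positivity) (by norm_num)]; linarith
  have hδ2 : 1 / L ≤ 9 * δ := by
    rw [hδdef, ← mul_div_assoc, div_le_div_iff₀ (by positivity) (by positivity)]
    nlinarith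
  have hδi : δ⁻¹ ≤ 9 * L := by
    rw [hδdef, inv_div, div_le_iff₀ (by positivity)]
    nlinarith
  set Z : ℝ := (X : ℝ) ^ (1 / 4 : ℝ) with hZdef
  have hZ4 : Z ^ 4 = X := by
    rw [hZdef, ← Real.rpow_natCast, ← Real.rpow_mul hX0.le]
    norm_num
  have hZ1 : 1 ≤ Z := Real.one_le_rpow hX1 (by norm_num)
  have hZ0 : 0 < Z := by linarith
  have hZexp : Z = Real.exp (L / 4) := by
    rw [hZdef, Real.rpow_def_of_pos hX0]
    congr 1
    rw [← hLdef]; ring
  set Y : ℕ := ⌊Z⌋₊ with hYdef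
  have hY1 : 1 ≤ Y := Nat.floor_pos.2 hZ1
  have hY1' : (1 : ℝ) ≤ Y := by exact_mod_cast hY1
  have hYZ : (Y : ℝ) ≤ Z := Nat.floor_le hZ0.le
  have hZY : Z ≤ 2 * Y := by
    have := (Nat.lt_floor_add_one Z).le
    rw [← hYdef] at this
    linarith
  have hYX : (Y : ℝ) ^ 4 ≤ X := by
    rw [← hZ4]; gcongr
  -- exponentials
  set E := Real.exp (-(r / 800)) with hE
  have hE0 : 0 < E := Real.exp_pos _
  have f1 : (X : ℝ) ^ (1 + 32 * δ) = X * Real.exp (8 / 25 * r) := by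
    rw [Real.rpow_add hX0, Real.rpow_one, Real.rpow_def_of_pos hX0, ← hLdef]
    congr 2
    rw [show L * (32 * δ) = 32 * (δ * L) by ring, hδL]
    ring
  have f2 : Z ^ (-δ) = Real.exp (-(r / 400)) := by
    rw [hZexp, ← Real.exp_mul]
    congr 1
    rw [show L / 4 * -δ = -(δ * L) / 4 by ring, hδL]
    ring
  set τ := (Y : ℝ) ^ (-(δ / 2)) with hτdef
  have hτ0 : 0 < τ := Real.rpow_pos_of_pos (by linarith) _
  have f3 : τ ≤ 2 * E := by
    have h3 : τ ≤ (Z / 2) ^ (-(δ / 2)) := by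
      rw [hτdef, Real.rpow_neg (by positivity), Real.rpow_neg (by positivity)]
      apply inv_anti₀ (by positivity)
      apply Real.rpow_le_rpow (by positivity) (by linarith) (by positivity)
    have h4 : (Z / 2) ^ (-(δ / 2)) = Z ^ (-(δ / 2)) * 2 ^ (δ / 2) := by
      rw [Real.div_rpow hZ0.le (by norm_num), Real.rpow_neg (by norm_num : (0 : ℝ) ≤ 2)]
      field_simp
    have h5 : Z ^ (-(δ / 2)) = E := by
      rw [hZexp, ← Real.exp_mul, hE]
      congr 1
      rw [show L / 4 * -(δ / 2) = -(δ * L) / 8 by ring, hδL]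
      ring
    have h6 : (2 : ℝ) ^ (δ / 2) ≤ 2 := by
      calc (2 : ℝ) ^ (δ / 2) ≤ 2 ^ (1 : ℝ) :=
            Real.rpow_le_rpow_of_exponent_le (by norm_num) (by linarith)
        _ = 2 := Real.rpow_one 2
    rw [h4, h5] at h3
    nlinarith
  have f4 : τ⁻¹ * (Y : ℝ) ^ (-δ) = τ := by
    have : (Y : ℝ) ^ (-δ) = τ * τ := by
      rw [hτdef, ← Real.rpow_add (by linarith)]; congr 1; ring
    rw [this]; field_simp
  have f5 : τ⁻¹ ≤ X * E := by
    have h3 : τ⁻¹ = (Y : ℝ) ^ (δ / 2) := by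
      rw [hτdef, Real.rpow_neg (by positivity), inv_inv]
    rw [h3]
    calc (Y : ℝ) ^ (δ / 2) ≤ Z ^ (δ / 2) := Real.rpow_le_rpow (by positivity) hYZ (by positivity)
      _ = Real.exp (r / 800) := by
          rw [hZexp, ← Real.exp_mul]
          congr 1
          rw [show L / 4 * (δ / 2) = (δ * L) / 8 by ring, hδL]
          ring
      _ ≤ Real.exp (L + -(r / 800)) := by
          apply Real.exp_le_exp.2
          linarith
      _ = X * E := by rw [Real.exp_add, hXL]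
  have f6 : Z⁻¹ ≤ E := by
    rw [hZexp, ← Real.exp_neg, hE]
    apply Real.exp_le_exp.2
    linarith
  -- the first sum
  have hV : ∑ d ∈ SS T X r, ‖vv T Y δ d‖ ≤ 81 * C1 * X * L ^ (A1 + 2) * E := by
    have h3 := h1 X Y r δ hX hY1 hYX hδ2 hδ1
    rw [f1] at h3
    have h4 : 0 < δ ^ 2 * 4 ^ r := by positivity
    have h5 : 1 ≤ δ ^ 2 * (81 * L ^ 2) := by
      have : (1 : ℝ) ≤ δ * (9 * L) := by
        have := mul_le_mul_of_nonneg_left hδi hδ.le
        rwa [mul_inv_cancel₀ hδ.ne'] at this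
      calc (1 : ℝ) = 1 ^ 2 := by norm_num
        _ ≤ (δ * (9 * L)) ^ 2 := by gcongr
        _ = _ := by ring
    have h6 : Real.exp (8 / 25 * r) ≤ 4 ^ r * E := by
      calc Real.exp (8 / 25 * r) ≤ Real.exp (33 / 25 * r + -(r / 800)) := by
            apply Real.exp_le_exp.2; linarith
        _ = Real.exp (33 / 25 * r) * E := Real.exp_add _ _
        _ ≤ 4 ^ r * E := by gcongr; exact four_pow r
    refine le_of_mul_le_mul_left (h3.trans ?_) h4
    calc C1 * (X * Real.exp (8 / 25 * r)) * L ^ A1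
        ≤ C1 * (X * (4 ^ r * E)) * L ^ A1 * 1 := by rw [mul_one]; gcongr
      _ ≤ C1 * (X * (4 ^ r * E)) * L ^ A1 * (δ ^ 2 * (81 * L ^ 2)) := by gcongr
      _ = _ := by ring
  -- the second sum
  have hU : ∑ d ∈ sqf X, ‖vv T Y δ d - 1‖ ≤
      C2 * (2 + 2 * 9 ^ A2 + 1 + 1 + 9) * X * L ^ (2 * A2 + 1) * E := by
    have h3 := h2 X Y Z δ τ hX (by linarith) hY1 hYX hZ1 hZ4.le hδ (by linarith) hτ0
    rw [f2] at h3
    have g1 : X * τ ≤ 2 * (X * E) := by nlinarith
    have g2 : τ⁻¹ * X * (Y : ℝ) ^ (-δ) * δ⁻¹ ^ A2 ≤ 2 * (X * E) * (9 ^ A2 * L ^ A2) := by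
      calc τ⁻¹ * X * (Y : ℝ) ^ (-δ) * δ⁻¹ ^ A2 = X * (τ⁻¹ * (Y : ℝ) ^ (-δ)) * δ⁻¹ ^ A2 := by ring
        _ = X * τ * δ⁻¹ ^ A2 := by rw [f4]
        _ ≤ (2 * (X * E)) * (9 * L) ^ A2 := by gcongr
        _ = _ := by rw [mul_pow]
    have g3 : X * Z⁻¹ ≤ X * E := by gcongr
    have g4 : δ⁻¹ * Real.exp (-(r / 400)) * X ≤ 9 * L * (X * E) := by
      have : Real.exp (-(r / 400)) ≤ E := by
        rw [hE]; apply Real.exp_le_exp.2; linarith
      calc δ⁻¹ * Real.exp (-(r / 400)) * X ≤ (9 * L) * E * X := by gcongr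
        _ = _ := by ring
    have gL : 1 ≤ L ^ (A2 + 1) := one_le_pow₀ hL1
    have gL2 : L ^ A2 ≤ L ^ (A2 + 1) := pow_le_pow_right₀ hL1 (by omega)
    have gL3 : L ≤ L ^ (A2 + 1) := le_self_pow₀ hL1 (by omega)
    calc ∑ d ∈ sqf X, ‖vv T Y δ d - 1‖
        ≤ C2 * L ^ A2 * (X * τ + τ⁻¹ * X * (Y : ℝ) ^ (-δ) * (δ⁻¹) ^ A2 +
          τ⁻¹ + X * Z⁻¹ + δ⁻¹ * Real.exp (-(r / 400)) * X) := h3
      _ ≤ C2 * L ^ A2 * (2 * (X * E) * 1 + 2 * (X * E) * (9 ^ A2 * L ^ A2) + X * E * 1 +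
          X * E * 1 + 9 * L * (X * E)) := by
          rw [mul_one, mul_one]
          gcongr
      _ ≤ C2 * L ^ A2 * (2 * (X * E) * L ^ (A2 + 1) + 2 * (X * E) * (9 ^ A2 * L ^ (A2 + 1)) +
          X * E * L ^ (A2 + 1) + X * E * L ^ (A2 + 1) + 9 * L ^ (A2 + 1) * (X * E)) := by
          gcongr
      _ = _ := by ring
  -- conclusion
  have hcount : ((SS T X r).card : ℝ) ≤ ∑ d ∈ SS T X r, ‖vv T Y δ d‖ +
      ∑ d ∈ sqf X, ‖vv T Y δ d - 1‖ := by
    calc ((SS T X r).card : ℝ) = ∑ d ∈ SS T X r, (1 : ℝ) := by simp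
      _ ≤ ∑ d ∈ SS T X r, (‖vv T Y δ d‖ + ‖vv T Y δ d - 1‖) := by
          refine Finset.sum_le_sum fun d _ => ?_
          have := norm_sub_le (vv T Y δ d) (vv T Y δ d - 1)
          simpa using this
      _ = ∑ d ∈ SS T X r, ‖vv T Y δ d‖ + ∑ d ∈ SS T X r, ‖vv T Y δ d - 1‖ := Finset.sum_add_distrib
      _ ≤ _ := by
          gcongr
          exact SS_sub T X r
  have p1 : L ^ (A1 + 2) ≤ L ^ (A1 + 2 + (2 * A2 + 1)) := pow_le_pow_right₀ hL1 (by omega)
  have p2 : L ^ (2 * A2 + 1) ≤ L ^ (A1 + 2 + (2 * A2 + 1)) := pow_le_pow_right₀ hL1 (by omega)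
  calc ((SS T X r).card : ℝ) ≤ 81 * C1 * X * L ^ (A1 + 2) * E +
        C2 * (2 + 2 * 9 ^ A2 + 1 + 1 + 9) * X * L ^ (2 * A2 + 1) * E := by linarith
    _ ≤ 81 * C1 * X * L ^ (A1 + 2 + (2 * A2 + 1)) * E +
        C2 * (2 + 2 * 9 ^ A2 + 1 + 1 + 9) * X * L ^ (A1 + 2 + (2 * A2 + 1)) * E := by gcongr
    _ = _ := by ring

/-- all orders -/
theorem card_all : ∃ (C c : ℝ) (A : ℕ), 0 < C ∧ 0 < c ∧ ∀ X r : ℕ, 3 ≤ X →
    ((SS T X r).card : ℝ) ≤ C * X * Real.log X ^ A * Real.exp (-(c * r)) := by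
  obtain ⟨C1, A, hC1, h1⟩ := card_mid T
  obtain ⟨D, hD, h2⟩ := ord_bound T
  have hD0 : 0 < D := by linarith
  refine ⟨(3 + C1) * Real.exp 12, 1 / (800 * D), A, by positivity, by positivity, fun X r hX => ?_⟩
  have hX0 : (0 : ℝ) < X := by exact_mod_cast (by omega : 0 < X)
  have hL1 := log_ge_one hX
  set L := Real.log X with hLdef
  have hLA : 1 ≤ L ^ A := one_le_pow₀ hL1
  have triv : ((SS T X r).card : ℝ) ≤ 3 * X := by
    refine le_trans ?_ (card_sqf (X := X) (by omega))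
    exact_mod_cast Finset.card_le_card (SS_sub T X r)
  have small : (r : ℝ) ≤ 12 * D →
      ((SS T X r).card : ℝ) ≤ (3 + C1) * Real.exp 12 * X * L ^ A * Real.exp (-(1 / (800 * D) * r)) := by
    intro hr
    have e1 : 1 ≤ Real.exp 12 * Real.exp (-(1 / (800 * D) * r)) := by
      rw [← Real.exp_add, Real.one_le_exp_iff]
      have : 1 / (800 * D) * r ≤ 12 := by
        rw [div_mul_eq_mul_div, one_mul, div_le_iff₀ (by positivity)]
        nlinarith
      linarith
    calc ((SS T X r).card : ℝ) ≤ 3 * X * 1 * 1 := by linarith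
      _ ≤ (3 + C1) * X * L ^ A * (Real.exp 12 * Real.exp (-(1 / (800 * D) * r))) := by
          gcongr; linarith
      _ = _ := by ring
  rcases Nat.lt_or_ge r 12 with hr | hr
  · apply small
    have : (r : ℝ) ≤ 12 := by exact_mod_cast hr.le
    nlinarith
  rcases le_or_gt (r : ℝ) L with hrL | hrL
  · refine (h1 X r hX hr hrL).trans ?_
    have e2 : Real.exp (-(r / 800 : ℝ)) ≤ Real.exp 12 * Real.exp (-(1 / (800 * D) * r)) := by
      rw [← Real.exp_add]
      apply Real.exp_le_exp.2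
      have : 1 / (800 * D) * r ≤ 1 / 800 * r := by
        gcongr
        linarith
      linarith
    calc C1 * X * L ^ A * Real.exp (-(r / 800 : ℝ))
        ≤ (3 + C1) * X * L ^ A * (Real.exp 12 * Real.exp (-(1 / (800 * D) * r))) := by
          gcongr; linarith
      _ = _ := by ring
  rcases le_or_gt (r : ℝ) (D * L) with hrD | hrD
  · rcases lt_or_ge L 12 with hL12 | hL12
    · apply small
      nlinarith
    · set s := ⌊L⌋₊ with hs
      have hs12 : 12 ≤ s := Nat.le_floor (by exact_mod_cast hL12)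
      have hsL : (s : ℝ) ≤ L := Nat.floor_le (by linarith)
      have hLs : L ≤ s + 1 := (Nat.lt_floor_add_one L).le
      have hsr : s ≤ r := by
        have : (s : ℝ) ≤ r := by linarith
        exact_mod_cast this
      have hsub : SS T X r ⊆ SS T X s := by
        intro d hd
        obtain ⟨hd1, hd2⟩ := (mem_SS T).1 hd
        exact (mem_SS T).2 ⟨hd1, le_trans (by exact_mod_cast hsr) hd2⟩
      have e2 : Real.exp (-(s / 800 : ℝ)) ≤ Real.exp 12 * Real.exp (-(1 / (800 * D) * r)) := by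
        rw [← Real.exp_add]
        apply Real.exp_le_exp.2
        have h4 : 1 / (800 * D) * r ≤ L / 800 := by
          rw [div_mul_eq_mul_div, one_mul, div_le_div_iff₀ (by positivity) (by norm_num)]
          nlinarith
        linarith
      calc ((SS T X r).card : ℝ) ≤ ((SS T X s).card : ℝ) := by
            exact_mod_cast Finset.card_le_card hsub
        _ ≤ C1 * X * L ^ A * Real.exp (-(s / 800 : ℝ)) := h1 X s hX hs12 hsL
        _ ≤ (3 + C1) * X * L ^ A * (Real.exp 12 * Real.exp (-(1 / (800 * D) * r))) := by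
            gcongr; linarith
        _ = _ := by ring
  · have hempty : SS T X r = ∅ := by
      rw [Finset.eq_empty_iff_forall_notMem]
      intro d hd
      obtain ⟨hd1, hd2⟩ := (mem_SS T).1 hd
      have := h2 d X (sqf_sqf hd1) hX (mem_sqf.1 hd1).1 r hd2
      linarith
    rw [hempty]
    simp only [Finset.card_empty, Nat.cast_zero]
    positivity

/-- T12: exponential moments of the order of vanishing -/
theorem T12 {Q : ℕ} {lam : ℕ → ℝ} (T : Twists Q lam) : ∃ (C c : ℝ) (A : ℕ), 0 < C ∧ 0 < c ∧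
    (∀ d : ℤ, Squarefree d → analyticOrderAt (T.ell d) (1 / 2) ≠ ⊤) ∧
    ∀ X : ℕ, 3 ≤ X →
      ∑ d ∈ sqf X,
        Real.exp (c * (analyticOrderAt (T.ell d) (1 / 2)).toNat) ≤ C * X * Real.log X ^ A := by
  obtain ⟨C, c, A, hC, hc, h⟩ := card_all T
  set q := Real.exp (-(c / 2)) with hq
  have hq0 : 0 < q := Real.exp_pos _
  have hq1 : q < 1 := by rw [hq, Real.exp_lt_one_iff]; linarith
  refine ⟨C * (1 - q)⁻¹, c / 2, A, mul_pos hC (inv_pos.2 (by linarith)), by positivity,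
    fun d hd => ord_ne_top T hd, fun X hX => ?_⟩
  have hX0 : (0 : ℝ) < X := by exact_mod_cast (by omega : 0 < X)
  have hL1 := log_ge_one hX
  set n : ℤ → ℕ := fun d => (analyticOrderAt (T.ell d) (1 / 2)).toNat with hn
  set R : ℕ := (sqf X).sup n with hR
  have hmem : ∀ d ∈ sqf X, ∀ r : ℕ, r ≤ n d → d ∈ SS T X r := by
    intro d hd r hr
    refine (mem_SS T).2 ⟨hd, ?_⟩
    have h1 := ord_ne_top T (sqf_sqf hd)
    rw [← ENat.natCast_toNat h1]
    exact_mod_cast hr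
  have step : ∀ d ∈ sqf X, Real.exp (c / 2 * n d) ≤
      ∑ r ∈ Finset.range (R + 1), if d ∈ SS T X r then Real.exp (c / 2 * r) else 0 := by
    intro d hd
    have h1 : n d ∈ Finset.range (R + 1) :=
      Finset.mem_range.2 (Nat.lt_succ_of_le (Finset.le_sup (f := n) hd))
    calc Real.exp (c / 2 * n d) = if d ∈ SS T X (n d) then Real.exp (c / 2 * (n d : ℕ)) else 0 := by
          rw [if_pos (hmem d hd _ le_rfl)]
      _ ≤ _ := Finset.single_le_sum
          (f := fun r : ℕ => if d ∈ SS T X r then Real.exp (c / 2 * r) else 0)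
          (fun r _ => by positivity) h1
  calc ∑ d ∈ sqf X, Real.exp (c / 2 * n d)
      ≤ ∑ d ∈ sqf X, ∑ r ∈ Finset.range (R + 1),
        (if d ∈ SS T X r then Real.exp (c / 2 * r) else 0) := Finset.sum_le_sum step
    _ = ∑ r ∈ Finset.range (R + 1), ∑ d ∈ sqf X,
        (if d ∈ SS T X r then Real.exp (c / 2 * r) else 0) := Finset.sum_comm
    _ = ∑ r ∈ Finset.range (R + 1), ((SS T X r).card : ℝ) * Real.exp (c / 2 * r) := by
        refine Finset.sum_congr rfl fun r _ => ?_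
        rw [← Finset.sum_filter, Finset.sum_const, nsmul_eq_mul]
        congr 3
        ext d
        simp only [Finset.mem_filter]
        exact ⟨fun h => h.2, fun h => ⟨SS_sub T X r h, h⟩⟩
    _ ≤ ∑ r ∈ Finset.range (R + 1), (C * X * Real.log X ^ A) * q ^ r := by
        refine Finset.sum_le_sum fun r _ => ?_
        have h3 : Real.exp (-(c * r)) * Real.exp (c / 2 * r) = q ^ r := by
          rw [← Real.exp_add, hq, ← Real.exp_nat_mul]; congr 1; ring
        calc ((SS T X r).card : ℝ) * Real.exp (c / 2 * r)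
            ≤ C * X * Real.log X ^ A * Real.exp (-(c * r)) * Real.exp (c / 2 * r) := by
              gcongr; exact h X r hX
          _ = _ := by rw [mul_assoc, h3]
    _ = (C * X * Real.log X ^ A) * ∑ r ∈ Finset.range (R + 1), q ^ r := by rw [Finset.mul_sum]
    _ ≤ (C * X * Real.log X ^ A) * (1 - q)⁻¹ := by
        gcongr
        rw [← tsum_geometric_of_lt_one hq0.le hq1]
        exact (summable_geometric_of_lt_one hq0.le hq1).sum_le_tsum _ (fun i _ => by positivity)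
    _ = _ := by ring

end Pool.Agent.Y703.QT12
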